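import Pool.Agent.Helper78.Stat.Core
import Pool.Agent.Collatz3.PDGrand
import Pool.Agent.Collatz3.FWLln

set_option autoImplicit false

/-!
The uniform positive density of predecessor sets, for the 3x+1 map on the natural numbers.
-/

namespace Pool.Agent.Helper78.Stat

open Pool.Agent.Helper14 (T)

lemma Tt_eq : Tt = Pool.Agent.Collatz3.FW.Tn := rfl

theorem exists_PD : ∃ c : ℝ, 0 < c ∧ PD c := by
  obtain ⟨c, hc, h⟩ := Pool.Agent.Collatz3.PD.grand_density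
  refine ⟨c, hc, fun m hm h3 X hX => ?_⟩
  have hm0 : (0 : ℝ) < m := by exact_mod_cast hm
  have hx : (1 : ℝ) ≤ (X : ℝ) / m := by
    rw [le_div_iff₀ hm0]
    have : (m : ℝ) ≤ X := by exact_mod_cast hX
    linarith
  have h1 := h (m : ℤ) (by exact_mod_cast hm.ne') ((X : ℝ) / m) hx
  have hsub : {n : ℤ | 0 < n * (m : ℤ) ∧ |(n : ℝ)| ≤ (X : ℝ) / m * |((m : ℤ) : ℝ)| ∧
      ∃ j k : ℕ, T^[j] n = T^[k] (m : ℤ) ∧ (¬ (3 : ℤ) ∣ (m : ℤ) → k = 0)} ⊆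
      (fun n : ℕ => (n : ℤ)) '' {n : ℕ | 1 ≤ n ∧ n ≤ X ∧ ∃ j : ℕ, Tt^[j] n = m} := by
    rintro n ⟨h1, h2, j, k, h4, h5⟩
    have hn0 : 0 < n := by
      have : (0 : ℤ) < m := by exact_mod_cast hm
      exact (pos_iff_pos_of_mul_pos h1).mpr this
    obtain ⟨r, rfl⟩ := Int.eq_ofNat_of_zero_le hn0.le
    have hr : 1 ≤ r := by exact_mod_cast hn0
    have h3' : ¬ (3 : ℤ) ∣ (m : ℤ) := by
      intro hd; exact h3 (by exact_mod_cast hd)
    have hk := h5 h3'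
    subst hk
    refine ⟨r, ⟨hr, ?_, j, ?_⟩, rfl⟩
    · have e1 : |((m : ℤ) : ℝ)| = m := by
        rw [Int.cast_natCast, abs_of_pos hm0]
      rw [e1, div_mul_cancel₀ _ hm0.ne'] at h2
      have h6 : ((r : ℤ) : ℝ) ≤ X := (le_abs_self _).trans h2
      exact_mod_cast h6
    · have h4' : T^[j] (r : ℤ) = (m : ℤ) := h4
      rw [Pool.Agent.Collatz3.FW.iter_cast] at h4'
      rw [Tt_eq]
      exact_mod_cast h4'
  have hfin : {n : ℕ | 1 ≤ n ∧ n ≤ X ∧ ∃ j : ℕ, Tt^[j] n = m}.Finite :=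
    (Set.finite_Icc 1 X).subset fun _ h => ⟨h.1, h.2.1⟩
  have h2 := Set.ncard_le_ncard hsub (hfin.image _)
  have h3' := Set.ncard_image_le (f := fun n : ℕ => (n : ℤ)) hfin
  have h4 : c * ((X : ℝ) / m) ≤
      ({n : ℕ | 1 ≤ n ∧ n ≤ X ∧ ∃ j : ℕ, Tt^[j] n = m}.ncard : ℝ) := by
    refine h1.trans ?_
    exact_mod_cast h2.trans h3'
  have h5 : c * X = m * (c * ((X : ℝ) / m)) := by field_simp
  rw [h5]
  exact mul_le_mul_of_nonneg_left h4 hm0.le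

end Pool.Agent.Helper78.Stat
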