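import Mathlib

set_option autoImplicit false

/-!
Statistical bounds for the total stopping time of the 3x+1 map give bounds for every integer.
-/

namespace Pool.Agent.Helper78.Stat

open Filter Topology

/-- The 3x+1 map. -/
def Tt (m : ℕ) : ℕ := if m % 2 = 0 then m / 2 else (3 * m + 1) / 2

/-- The integers `n` in `[1, X]` which do not reach `1` within `α log n` steps. -/
def Ex (α : ℝ) (X : ℕ) : Set ℕ :=
  {n : ℕ | 1 ≤ n ∧ n ≤ X ∧ ∀ k : ℕ, (k : ℝ) ≤ α * Real.log n → Tt^[k] n ≠ 1}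

/-- Uniform positive density of the sets of predecessors. -/
def PD (c : ℝ) : Prop := ∀ m : ℕ, 0 < m → ¬ 3 ∣ m → ∀ X : ℕ, m ≤ X →
  c * X ≤ m * ({n : ℕ | 1 ≤ n ∧ n ≤ X ∧ ∃ j : ℕ, Tt^[j] n = m}.ncard : ℝ)

lemma Ex_finite (α : ℝ) (X : ℕ) : (Ex α X).Finite :=
  (Set.finite_Icc 1 X).subset fun _ h => ⟨h.1, h.2.1⟩

lemma Ex_ncard_le (α : ℝ) (X : ℕ) : (Ex α X).ncard ≤ X := by
  have h : Ex α X ⊆ Set.Icc 1 X := fun _ h => ⟨h.1, h.2.1⟩
  have := Set.ncard_le_ncard h (Set.finite_Icc 1 X)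
  rwa [Set.ncard_Icc_nat, Nat.add_sub_cancel] at this

lemma two_mul_Tt (m : ℕ) : m ≤ 2 * Tt m := by
  unfold Tt; split_ifs <;> omega

lemma le_pow_mul_iter (k n : ℕ) : n ≤ 2 ^ k * Tt^[k] n := by
  induction k generalizing n with
  | zero => simp
  | succ k ih =>
    rw [Function.iterate_succ_apply]
    have h1 := ih (Tt n)
    have h2 := two_mul_Tt n
    calc n ≤ 2 * Tt n := h2
      _ ≤ 2 * (2 ^ k * Tt^[k] (Tt n)) := by omega
      _ = 2 ^ (k + 1) * Tt^[k] (Tt n) := by ring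

/-- After reaching `1` the orbit stays in `{1, 2}`. -/
lemma iter_of_one (i : ℕ) : Tt^[i] 1 = 1 ∨ Tt^[i] 1 = 2 := by
  induction i with
  | zero => left; rfl
  | succ i ih =>
    rw [Function.iterate_succ_apply']
    rcases ih with h | h <;> rw [h]
    · right; rfl
    · left; rfl

lemma hits_sub {n m j k : ℕ} (hm : 3 ≤ m) (hj : Tt^[j] n = m) (hk : Tt^[k] n = 1) :
    j ≤ k ∧ Tt^[k - j] m = 1 := by
  have hjk : j ≤ k := by
    by_contra hc
    push Not at hc
    have h1 : Tt^[j - k] (Tt^[k] n) = m := by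
      rw [← Function.iterate_add_apply, Nat.sub_add_cancel hc.le, hj]
    rw [hk] at h1
    rcases iter_of_one (j - k) with h | h <;> omega
  refine ⟨hjk, ?_⟩
  rw [← hj, ← Function.iterate_add_apply, Nat.sub_add_cancel hjk, hk]

/-- An eventual contradiction. -/
lemma pow_unbounded (δ K : ℝ) (hδ : 0 < δ) : ∃ X : ℕ, 1 ≤ X ∧ K < (X : ℝ) ^ δ := by
  have h := (tendsto_rpow_atTop hδ).comp (tendsto_natCast_atTop_atTop (R := ℝ))
  obtain ⟨X, hX1, hX2⟩ := ((h.eventually_gt_atTop K).and (eventually_ge_atTop 1)).exists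
  exact ⟨X, hX2, hX1⟩

/-- The hypothesis forces `α ≥ 1 / log 2`. -/
lemma alpha_ge {α δ C : ℝ} (hδ : 0 < δ) (hC : 0 < C)
    (h : ∀ X : ℕ, 1 ≤ X → ((Ex α X).ncard : ℝ) ≤ C * (X : ℝ) ^ (1 - δ)) :
    1 ≤ α * Real.log 2 := by
  by_contra hc
  push Not at hc
  obtain ⟨X, hX1, hX⟩ := pow_unbounded δ (2 * C + 1) hδ
  -- every `2 ≤ n ≤ X` is exceptional
  have hsub : Set.Icc 2 X ⊆ Ex α X := by
    rintro n ⟨h2, hn⟩
    refine ⟨by omega, hn, fun k hk h1 => ?_⟩
    have h3 := le_pow_mul_iter k n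
    rw [h1, mul_one] at h3
    have h4 : Real.log n ≤ k * Real.log 2 := by
      rw [← Real.log_pow]
      exact Real.log_le_log (by positivity) (by exact_mod_cast h3)
    have h5 : 0 < Real.log n := Real.log_pos (by exact_mod_cast h2)
    have hl2 : 0 < Real.log 2 := Real.log_pos (by norm_num)
    nlinarith
  have hcard : (X : ℝ) - 1 ≤ C * (X : ℝ) ^ (1 - δ) := by
    refine le_trans ?_ (h X hX1)
    have h1 := Set.ncard_le_ncard hsub (Ex_finite α X)
    rw [Set.ncard_Icc_nat] at h1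
    have h2 : X ≤ (Ex α X).ncard + 1 := by omega
    have h3 : (X : ℝ) ≤ ((Ex α X).ncard : ℝ) + 1 := by exact_mod_cast h2
    linarith
  have hX0 : (0 : ℝ) < X := by exact_mod_cast hX1
  have hX1' : (1 : ℝ) ≤ X := by exact_mod_cast hX1
  have hsplit : (X : ℝ) = (X : ℝ) ^ (1 - δ) * (X : ℝ) ^ δ := by
    rw [← Real.rpow_add hX0]; simp
  have hp : 0 < (X : ℝ) ^ (1 - δ) := Real.rpow_pos_of_pos hX0 _
  have hX2 : (2 : ℝ) ≤ X := by
    have : 1 < X := by
      rcases Nat.lt_or_ge 1 X with h1 | h1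
      · exact h1
      · have : X = 1 := by omega
        rw [this] at hX
        simp at hX
        linarith
    exact_mod_cast this
  nlinarith

/-- The main step: integers prime to 3. -/
lemma prime_to_three {c α δ C : ℝ} (hc : 0 < c) (hPD : PD c) (hα : 0 < α) (hδ : 0 < δ)
    (hδ1 : δ ≤ 1) (hC : 0 < C)
    (h : ∀ X : ℕ, 1 ≤ X → ((Ex α X).ncard : ℝ) ≤ C * (X : ℝ) ^ (1 - δ)) :
    ∃ B : ℝ, 0 ≤ B ∧ ∀ m : ℕ, 1 ≤ m → ¬ 3 ∣ m →
      ∃ k : ℕ, Tt^[k] m = 1 ∧ (k : ℝ) ≤ α / δ * Real.log m + B := by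
  set A : ℝ := (C / c + 1) ^ (1 / δ) with hA
  have hA1 : 1 ≤ A := Real.one_le_rpow (by have := div_pos hC hc; linarith) (by positivity)
  refine ⟨α * Real.log (A + 2) + 1, by
    have := Real.log_nonneg (by linarith : (1 : ℝ) ≤ A + 2)
    positivity, fun m hm h3 => ?_⟩
  by_cases hm2 : m ≤ 2
  · interval_cases m
    · exact ⟨0, rfl, by
        have := Real.log_nonneg (by linarith : (1 : ℝ) ≤ A + 2)
        simp; positivity⟩
    · refine ⟨1, rfl, ?_⟩
      have := Real.log_nonneg (by linarith : (1 : ℝ) ≤ A + 2)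
      have h2 := Real.log_nonneg (by norm_num : (1 : ℝ) ≤ 2)
      push_cast
      have : 0 ≤ α / δ * Real.log 2 := by positivity
      have : 0 ≤ α * Real.log (A + 2) := by positivity
      linarith
  push Not at hm2
  by_contra hcon
  push Not at hcon
  have hm0 : (0 : ℝ) < m := by exact_mod_cast hm
  have hm1 : (1 : ℝ) ≤ m := by exact_mod_cast hm
  set y : ℝ := A * (m : ℝ) ^ (1 / δ) with hy
  have hmd : (m : ℝ) ≤ (m : ℝ) ^ (1 / δ) := by
    have : (1 : ℝ) ≤ 1 / δ := by rw [le_div_iff₀ hδ]; linarith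
    calc (m : ℝ) = (m : ℝ) ^ (1 : ℝ) := (Real.rpow_one _).symm
      _ ≤ _ := Real.rpow_le_rpow_of_exponent_le hm1 this
  have hmd1 : (1 : ℝ) ≤ (m : ℝ) ^ (1 / δ) := hm1.trans hmd
  have hy0 : 0 < y := by positivity
  set X : ℕ := ⌊y⌋₊ + 1 with hX
  have hXy : y < X := by rw [hX]; push_cast; exact Nat.lt_floor_add_one y
  have hXy2 : (X : ℝ) ≤ y + 1 := by
    rw [hX]; push_cast
    have := Nat.floor_le hy0.le
    linarith
  have hX1 : 1 ≤ X := by omega
  have hX0 : (0 : ℝ) < X := by exact_mod_cast hX1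
  have hmX : m ≤ X := by
    have : (m : ℝ) ≤ X := by nlinarith
    exact_mod_cast this
  -- all predecessors are exceptional
  have hsub : {n : ℕ | 1 ≤ n ∧ n ≤ X ∧ ∃ j : ℕ, Tt^[j] n = m} ⊆ Ex α X := by
    rintro n ⟨h1, h2, j, hj⟩
    refine ⟨h1, h2, fun k hk hk1 => ?_⟩
    obtain ⟨hjk, hh⟩ := hits_sub hm2 hj hk1
    have h4 := hcon (k - j) hh
    have h5 : ((k - j : ℕ) : ℝ) ≤ k := by
      have : k - j ≤ k := Nat.sub_le _ _
      exact_mod_cast this
    have h6 : Real.log n ≤ Real.log X := Real.log_le_log (by exact_mod_cast h1)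
      (by exact_mod_cast h2)
    have h7 : Real.log X ≤ Real.log (A + 2) + 1 / δ * Real.log m := by
      have : (X : ℝ) ≤ (A + 2) * (m : ℝ) ^ (1 / δ) := by
        rw [hy] at hXy2
        nlinarith
      calc Real.log X ≤ Real.log ((A + 2) * (m : ℝ) ^ (1 / δ)) := Real.log_le_log hX0 this
        _ = _ := by
          rw [Real.log_mul (by positivity) (by positivity), Real.log_rpow hm0]
    have h8 : α * Real.log n ≤ α * (Real.log (A + 2) + 1 / δ * Real.log m) :=
      mul_le_mul_of_nonneg_left (h6.trans h7) hα.le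
    have h9 : α * (Real.log (A + 2) + 1 / δ * Real.log m) =
        α / δ * Real.log m + α * Real.log (A + 2) := by ring
    linarith
  have h1 := hPD m hm h3 X hmX
  have h2 : ({n : ℕ | 1 ≤ n ∧ n ≤ X ∧ ∃ j : ℕ, Tt^[j] n = m}.ncard : ℝ) ≤ (Ex α X).ncard := by
    exact_mod_cast Set.ncard_le_ncard hsub (Ex_finite α X)
  have h3' := h X hX1
  have h4 : c * X ≤ m * (C * (X : ℝ) ^ (1 - δ)) :=
    h1.trans (mul_le_mul_of_nonneg_left (h2.trans h3') hm0.le)
  have hsplit : (X : ℝ) = (X : ℝ) ^ (1 - δ) * (X : ℝ) ^ δ := by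
    rw [← Real.rpow_add hX0]; simp
  have hp : 0 < (X : ℝ) ^ (1 - δ) := Real.rpow_pos_of_pos hX0 _
  have h5 : c * (X : ℝ) ^ δ ≤ m * C := by
    have : (X : ℝ) ^ (1 - δ) * (c * (X : ℝ) ^ δ) ≤ (X : ℝ) ^ (1 - δ) * (m * C) := by
      calc (X : ℝ) ^ (1 - δ) * (c * (X : ℝ) ^ δ) = c * ((X : ℝ) ^ (1 - δ) * (X : ℝ) ^ δ) := by ring
        _ = c * X := by rw [← hsplit]
        _ ≤ _ := h4
        _ = _ := by ring
    exact le_of_mul_le_mul_left this hp
  have h6 : (C / c + 1) * m < (X : ℝ) ^ δ := by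
    have e1 : y ^ δ = (C / c + 1) * m := by
      rw [hy, Real.mul_rpow (by positivity) (by positivity), hA, ← Real.rpow_mul
        (by have := div_pos hC hc; linarith), ← Real.rpow_mul hm0.le]
      have : 1 / δ * δ = 1 := by field_simp
      rw [this, Real.rpow_one, Real.rpow_one]
    rw [← e1]
    exact Real.rpow_lt_rpow hy0.le hXy hδ
  have h7 : (m : ℝ) * C < c * (X : ℝ) ^ δ := by
    have : c * ((C / c + 1) * m) = m * C + c * m := by field_simp
    nlinarith
  linarith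

/-- **Theorem E.** A power saving for the number of integers whose total stopping time exceeds
`α log n` gives a linear bound for the total stopping times of all integers. -/
theorem stat_to_all {c α δ C : ℝ} (hc : 0 < c) (hPD : PD c) (hα : 0 < α) (hδ : 0 < δ)
    (hδ1 : δ ≤ 1) (hC : 0 < C)
    (h : ∀ X : ℕ, 1 ≤ X → ((Ex α X).ncard : ℝ) ≤ C * (X : ℝ) ^ (1 - δ)) :
    ∃ B : ℝ, 0 ≤ B ∧ ∀ n : ℕ, 1 ≤ n →
      ∃ k : ℕ, Tt^[k] n = 1 ∧ (k : ℝ) ≤ α / δ * Real.log n + B := by
  obtain ⟨B, hB, hmain⟩ := prime_to_three hc hPD hα hδ hδ1 hC h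
  have ha := alpha_ge hδ hC h
  have hl2 : 0 < Real.log 2 := Real.log_pos (by norm_num)
  have hg : 1 ≤ α / δ * Real.log 2 := by
    have : α ≤ α / δ := by rw [le_div_iff₀ hδ]; nlinarith
    nlinarith
  have hg0 : 0 < α / δ := by positivity
  refine ⟨B + 1 + α / δ * Real.log 2, by positivity, fun n hn => ?_⟩
  -- strong induction
  induction n using Nat.strong_induction_on with
  | _ n ih =>
    by_cases h3 : 3 ∣ n
    · rcases Nat.even_or_odd n with he | ho
      · -- even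
        obtain ⟨r, hr⟩ := he
        have hr1 : 1 ≤ r := by omega
        obtain ⟨k, hk1, hk2⟩ := ih r (by omega) hr1
        refine ⟨k + 1, ?_, ?_⟩
        · rw [Function.iterate_succ_apply]
          have : Tt n = r := by unfold Tt; rw [if_pos (by omega)]; omega
          rw [this, hk1]
        · have hlog : Real.log n = Real.log 2 + Real.log r := by
            rw [hr, show ((r + r : ℕ) : ℝ) = 2 * r by push_cast; ring,
              Real.log_mul (by norm_num) (by positivity)]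
          rw [hlog]
          push_cast
          nlinarith
      · -- odd
        have hodd : n % 2 = 1 := Nat.odd_iff.mp ho
        set m := (3 * n + 1) / 2 with hm
        have hT : Tt n = m := by unfold Tt; rw [if_neg (by omega)]
        have hm3 : ¬ 3 ∣ m := by omega
        obtain ⟨k, hk1, hk2⟩ := hmain m (by omega) hm3
        refine ⟨k + 1, ?_, ?_⟩
        · rw [Function.iterate_succ_apply, hT, hk1]
        · have hlog : Real.log m ≤ Real.log 2 + Real.log n := by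
            rw [← Real.log_mul (by norm_num) (by positivity)]
            refine Real.log_le_log (by
              have : 0 < m := by omega
              exact_mod_cast this) ?_
            have : m ≤ 2 * n := by omega
            exact_mod_cast this
          push_cast
          nlinarith
    · obtain ⟨k, hk1, hk2⟩ := hmain n hn h3
      exact ⟨k, hk1, by nlinarith⟩

/-- The upper half of the conjecture for the scaled stopping time constant is equivalent to its
statistical form. -/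
theorem upper_iff {c : ℝ} (hc : 0 < c) (hPD : PD c) {γ : ℝ} (hγ : 0 < γ) :
    (∀ ε : ℝ, 0 < ε → ∃ N : ℕ, ∀ n : ℕ, N ≤ n →
      ∃ k : ℕ, Tt^[k] n = 1 ∧ (k : ℝ) ≤ (γ + ε) * Real.log n) ↔
    ∀ ε : ℝ, 0 < ε → ∀ η : ℝ, 0 < η → ∀ᶠ X : ℕ in atTop,
      ((Ex (γ + ε) X).ncard : ℝ) ≤ (X : ℝ) ^ η := by
  constructor
  · intro h ε hε η hη
    obtain ⟨N, hN⟩ := h ε hε
    have h1 : ∀ X, (Ex (γ + ε) X).ncard ≤ N := by
      intro X
      have hsub : Ex (γ + ε) X ⊆ Set.Icc 1 N := by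
        rintro n ⟨h1, h2, h3⟩
        refine ⟨h1, ?_⟩
        by_contra hc'
        push Not at hc'
        obtain ⟨k, hk1, hk2⟩ := hN n hc'.le
        exact h3 k hk2 hk1
      have := Set.ncard_le_ncard hsub (Set.finite_Icc 1 N)
      rwa [Set.ncard_Icc_nat, Nat.add_sub_cancel] at this
    have h2 := (tendsto_rpow_atTop hη).comp (tendsto_natCast_atTop_atTop (R := ℝ))
    filter_upwards [h2.eventually_ge_atTop (N : ℝ)] with X hX
    refine le_trans ?_ hX
    exact_mod_cast h1 X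
  · intro h ε hε
    -- parameters
    obtain ⟨η, hη0, hη1, hη⟩ : ∃ η : ℝ, 0 < η ∧ η < 1 ∧
        (γ + ε / 4) / (1 - η) ≤ γ + ε / 2 := by
      refine ⟨(ε / 4) / (γ + ε / 2), by positivity, ?_, ?_⟩
      · rw [div_lt_one (by positivity)]; linarith
      · have hp : 0 < γ + ε / 2 := by positivity
        have e1 : 1 - ε / 4 / (γ + ε / 2) = (γ + ε / 4) / (γ + ε / 2) := by
          field_simp; ring
        rw [e1, div_div_eq_mul_div, mul_div_assoc, mul_comm]
        have : (γ + ε / 2) / (γ + ε / 4) * (γ + ε / 4) = γ + ε / 2 := by field_simp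
        exact this.le
    obtain ⟨X₀, hX₀⟩ := eventually_atTop.mp (h (ε / 4) (by positivity) η hη0)
    have hall : ∀ X : ℕ, 1 ≤ X → ((Ex (γ + ε / 4) X).ncard : ℝ) ≤
        ((X₀ : ℝ) + 1) * (X : ℝ) ^ (1 - (1 - η)) := by
      intro X hX
      have hX1 : (1 : ℝ) ≤ X := by exact_mod_cast hX
      have hp1 : (1 : ℝ) ≤ (X : ℝ) ^ η := Real.one_le_rpow hX1 hη0.le
      rw [show (1 : ℝ) - (1 - η) = η by ring]
      have hX₀0 : (0 : ℝ) ≤ X₀ := Nat.cast_nonneg _
      by_cases hXX : X₀ ≤ X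
      · have := hX₀ X hXX
        nlinarith
      · push Not at hXX
        have h1 : ((Ex (γ + ε / 4) X).ncard : ℝ) ≤ X := by exact_mod_cast Ex_ncard_le _ _
        have h2 : (X : ℝ) ≤ X₀ := by exact_mod_cast hXX.le
        nlinarith
    obtain ⟨B, hB, hmain⟩ := stat_to_all hc hPD (α := γ + ε / 4) (δ := 1 - η)
      (C := (X₀ : ℝ) + 1) (by positivity) (by linarith) (by linarith) (by positivity) hall
    have hlog := Real.tendsto_log_atTop.comp (tendsto_natCast_atTop_atTop (R := ℝ))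
    obtain ⟨N, hN⟩ := eventually_atTop.mp (hlog.eventually_ge_atTop (2 * B / ε))
    refine ⟨max N 1, fun n hn => ?_⟩
    obtain ⟨k, hk1, hk2⟩ := hmain n (le_trans (le_max_right _ _) hn)
    refine ⟨k, hk1, hk2.trans ?_⟩
    have h1 : 2 * B / ε ≤ Real.log n := hN n (le_trans (le_max_left _ _) hn)
    have h0 : 0 ≤ Real.log n := le_trans (by positivity) h1
    rw [div_le_iff₀ hε] at h1
    have h2 : (γ + ε / 4) / (1 - η) * Real.log n ≤ (γ + ε / 2) * Real.log n :=
      mul_le_mul_of_nonneg_right hη h0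
    nlinarith

end Pool.Agent.Helper78.Stat
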