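import Pool.Agent.Helper78.Stat.Bridge
import Pool.Agent.Collatz3.GAll

set_option autoImplicit false

/-!
The conjecture `γ = γ_RRW` for the scaled total stopping time of the 3x+1 map is equivalent to a
statistical statement.
-/

namespace Pool.Agent.Helper78.Stat

open Filter Topology

theorem final :
    (∀ α δ C : ℝ, 0 < α → 0 < δ → δ ≤ 1 → 0 < C →
      (∀ X : ℕ, 1 ≤ X → ({n : ℕ | 1 ≤ n ∧ n ≤ X ∧ ∀ k : ℕ, (k : ℝ) ≤ α * Real.log n →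
        (fun m : ℕ => if m % 2 = 0 then m / 2 else (3 * m + 1) / 2)^[k] n ≠ 1}.ncard : ℝ) ≤
          C * (X : ℝ) ^ (1 - δ)) →
      ∃ B : ℝ, 0 ≤ B ∧ ∀ n : ℕ, 1 ≤ n → ∃ k : ℕ,
        (fun m : ℕ => if m % 2 = 0 then m / 2 else (3 * m + 1) / 2)^[k] n = 1 ∧
          (k : ℝ) ≤ α / δ * Real.log n + B) ∧
    ∃ γ₀ : ℝ,
      (γ₀ > ((1 / 2) * Real.log (4 / 3))⁻¹ ∧
        γ₀ * (⨆ θ : ℝ, (θ * (1 / γ₀) -
          Real.log ((1 / 2) * ((2 : ℝ) ^ θ + (2 / 3 : ℝ) ^ θ)))) = 1) ∧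
      (∀ γ : ℝ, γ > ((1 / 2) * Real.log (4 / 3))⁻¹ →
        γ * (⨆ θ : ℝ, (θ * (1 / γ) -
          Real.log ((1 / 2) * ((2 : ℝ) ^ θ + (2 / 3 : ℝ) ^ θ)))) = 1 → γ = γ₀) ∧
      (((∀ ε : ℝ, ε > 0 → ∃ N : ℕ, ∀ n : ℕ, N ≤ n →
          ∃ k : ℕ, (fun m : ℕ => if m % 2 = 0 then m / 2 else (3 * m + 1) / 2)^[k] n = 1 ∧
            (k : ℝ) ≤ (γ₀ + ε) * Real.log (n : ℝ)) ∧
        (∀ ε : ℝ, ε > 0 → ∀ N : ℕ, ∃ n : ℕ, N ≤ n ∧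
          ∀ k : ℕ, (fun m : ℕ => if m % 2 = 0 then m / 2 else (3 * m + 1) / 2)^[k] n = 1 →
            (γ₀ - ε) * Real.log (n : ℝ) ≤ (k : ℝ))) ↔
        ∀ ε : ℝ, 0 < ε → ∀ η : ℝ, 0 < η → ∀ᶠ X : ℕ in atTop,
          ({n : ℕ | 1 ≤ n ∧ n ≤ X ∧ ∀ k : ℕ, (k : ℝ) ≤ (γ₀ + ε) * Real.log n →
            (fun m : ℕ => if m % 2 = 0 then m / 2 else (3 * m + 1) / 2)^[k] n ≠ 1}.ncard : ℝ) ≤
              (X : ℝ) ^ η) := by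
  obtain ⟨c, hc, hPD⟩ := exists_PD
  refine ⟨fun α δ C hα hδ hδ1 hC h => stat_to_all hc hPD hα hδ hδ1 hC h, ?_⟩
  obtain ⟨γ₀, h1, h2, h3, -⟩ := Pool.Agent.Collatz3.final Pool.Agent.Collatz3.all_tilts
  refine ⟨γ₀, h1, h2, ?_⟩
  have hγ : 0 < γ₀ := by
    have h := h1.1
    have h5 : 0 < Real.log (4 / 3) := Real.log_pos (by norm_num)
    have h6 : 0 < ((1 / 2) * Real.log (4 / 3))⁻¹ := by positivity
    linarith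
  have h4 := upper_iff hc hPD hγ
  constructor
  · rintro ⟨h, -⟩
    exact h4.mp h
  · intro h
    refine ⟨h4.mpr h, fun ε hε N => ?_⟩
    obtain ⟨n, hn1, -, hn2⟩ := h3 1 one_pos (by norm_num) ε hε N
    exact ⟨n, hn1, hn2⟩

end Pool.Agent.Helper78.Stat
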